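import Mathlib

/-!
Definitions for MP_37cedb_gt.
-/

namespace Pool.Agent.MP_37cedb_gt

universe u

/-- A space is zero-dimensional if the clopen sets form a base. -/
def ZeroDim (X : Type u) [TopologicalSpace X] : Prop :=
  TopologicalSpace.IsTopologicalBasis {s : Set X | IsClopen s}

/-- `G` is minimal: every continuous group isomorphism onto a Hausdorff topological group has a
continuous inverse. -/
def IsMinimalGroup (G : Type u) [Group G] [TopologicalSpace G] : Prop :=
  ∀ (H : Type u) [Group H] [TopologicalSpace H] [IsTopologicalGroup H] [T2Space H] (f : G ≃* H),
    Continuous f → Continuous f.symm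

/-- Property Z: every closed zero-dimensional subgroup is discrete. -/
def PropZ (G : Type u) [Group G] [TopologicalSpace G] : Prop :=
  ∀ H : Subgroup G, IsClosed (H : Set G) → ZeroDim H → DiscreteTopology H

/-- Property Z_m: every closed zero-dimensional metrizable subgroup is discrete. -/
def PropZm (G : Type u) [Group G] [TopologicalSpace G] : Prop :=
  ∀ H : Subgroup G, IsClosed (H : Set G) → ZeroDim H → TopologicalSpace.MetrizableSpace H →
    DiscreteTopology H

end Pool.Agent.MP_37cedb_gt
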